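import Pool.Agent.H800R2.Front

set_option autoImplicit false

open Set Filter Topology

namespace Pool.Agent.W105.PR

noncomputable section

open Pool.Agent.H800R2
open scoped RealInnerProductSpace ContDiff

variable {n : ℕ}

/-- `u(p) = |p|² - 1 - 4 z`, where `z = ⟪e, p⟫` is the height of `p`. -/
def uu (e p : Euc n) : ℝ := ‖p‖ ^ 2 - 1 - 4 * ⟪e, p⟫

/-- The wall is the set where `HH = u² + z ≤ 0`. -/
def HH (e p : Euc n) : ℝ := uu e p ^ 2 + ⟪e, p⟫

/-- The ellipsoid is the set where `FE < 0`. -/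
def FE (e p : Euc n) : ℝ := ‖p‖ ^ 2 + ⟪e, p⟫ ^ 2 - 2

/-- The room: the ellipsoid without the wall. -/
def room (e : Euc n) : Set (Euc n) := {p | FE e p < 0 ∧ 0 < HH e p}

/-- The conserved quantity (in the plane: the product of the two angular momenta about the foci). -/
def KK (e p v : Euc n) : ℝ :=
  ⟪e, p⟫ ^ 2 * ‖v‖ ^ 2 - 2 * ⟪e, p⟫ * ⟪e, v⟫ * ⟪p, v⟫ + ⟪e, v⟫ ^ 2 * (‖p‖ ^ 2 - 1)

theorem inner_line (e p v : Euc n) (s : ℝ) : ⟪e, p + s • v⟫ = ⟪e, p⟫ + s * ⟪e, v⟫ := by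
  rw [inner_add_right, inner_smul_right]

theorem normsq_line (p v : Euc n) (s : ℝ) :
    ‖p + s • v‖ ^ 2 = ‖p‖ ^ 2 + 2 * s * ⟪p, v⟫ + s ^ 2 * ‖v‖ ^ 2 := by
  rw [norm_add_sq_real, inner_smul_right, norm_smul, mul_pow, Real.norm_eq_abs, sq_abs]
  ring

theorem inner_line_left (p v : Euc n) (s : ℝ) : ⟪p + s • v, v⟫ = ⟪p, v⟫ + s * ‖v‖ ^ 2 := by
  rw [inner_add_left, real_inner_smul_left, real_inner_self_eq_norm_sq]

/-- `KK` is constant on straight lines. -/
theorem KK_line (e p v : Euc n) (s : ℝ) : KK e (p + s • v) v = KK e p v := by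
  unfold KK
  rw [inner_line, inner_line_left, normsq_line]
  ring

theorem cs (e p : Euc n) (he : ‖e‖ = 1) : ⟪e, p⟫ ^ 2 ≤ ‖p‖ ^ 2 := by
  have h := abs_real_inner_le_norm e p
  rw [he, one_mul] at h
  rw [← sq_abs]
  exact pow_le_pow_left₀ (abs_nonneg _) h 2

/-- the wall is deep inside of the ellipsoid -/
theorem wall_inside {e p : Euc n} (he : ‖e‖ = 1) (h : HH e p ≤ 0) :
    ‖p‖ ^ 2 + ⟪e, p⟫ ^ 2 < 3 / 2 := by
  have h1 := cs e p he
  unfold HH at h
  have hu : uu e p = ‖p‖ ^ 2 - 1 - 4 * ⟪e, p⟫ := rfl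
  set z := ⟪e, p⟫ with hz
  set N := ‖p‖ ^ 2 with hN
  set u := uu e p with hu'
  have hN' : N = u + 1 + 4 * z := by linarith
  have hz0 : z ≤ 0 := by nlinarith [sq_nonneg u]
  -- s = -z, u^2 ≤ s, N = u + 1 - 4 s ≥ s^2 ≥ 0
  have h2 : 0 ≤ u + 1 + 4 * z := by nlinarith [sq_nonneg z]
  have h3 : u ^ 2 ≤ -z := by linarith
  have hu1 : u ≤ 1 := by nlinarith
  have hz1 : -z ≤ 1 / 2 := by linarith
  have h4 : z ^ 2 ≤ 1 / 2 * (-z) := by nlinarith
  nlinarith [sq_nonneg (u - 1 / 7)]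

theorem continuous_uu (e : Euc n) : Continuous (uu e) := by
  unfold uu; fun_prop

theorem continuous_HH (e : Euc n) : Continuous (HH e) := by
  unfold HH uu; fun_prop

theorem continuous_FE (e : Euc n) : Continuous (FE e) := by
  unfold FE; fun_prop

theorem isOpen_room (e : Euc n) : IsOpen (room e) := by
  unfold room
  exact (isOpen_lt (continuous_FE e) continuous_const).inter
    (isOpen_lt continuous_const (continuous_HH e))

theorem contDiff_FE (e : Euc n) : ContDiff ℝ ∞ (FE e) := by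
  unfold FE
  exact (((contDiff_norm_sq ℝ).comp contDiff_id).add
    ((contDiff_const.inner ℝ contDiff_id).pow 2)).sub contDiff_const

theorem contDiff_uu (e : Euc n) : ContDiff ℝ ∞ (uu e) := by
  unfold uu
  exact ((((contDiff_norm_sq ℝ).comp contDiff_id).sub contDiff_const)).sub
    (contDiff_const.mul (contDiff_const.inner ℝ contDiff_id))

theorem contDiff_HH (e : Euc n) : ContDiff ℝ ∞ (HH e) := by
  unfold HH
  exact ((contDiff_uu e).pow 2).add (contDiff_const.inner ℝ contDiff_id)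

theorem fderiv_FE (e p v : Euc n) : fderiv ℝ (FE e) p v = ⟪(2 : ℝ) • p + (2 * ⟪e, p⟫) • e, v⟫ := by
  have h1 : HasFDerivAt (fun p : Euc n => ‖p‖ ^ 2) (2 • innerSL ℝ p) p :=
    (hasStrictFDerivAt_norm_sq p).hasFDerivAt
  have h2 : HasFDerivAt (fun p : Euc n => ⟪e, p⟫) (innerSL ℝ e) p := (innerSL ℝ e).hasFDerivAt
  have h3 := (h1.add (h2.pow 2)).sub_const 2
  have h4 : fderiv ℝ (FE e) p = _ := HasFDerivAt.fderiv h3
  rw [h4]
  simp [inner_add_left, inner_smul_left]

theorem fderiv_uu (e p v : Euc n) : fderiv ℝ (uu e) p v = ⟪(2 : ℝ) • p - (4 : ℝ) • e, v⟫ := by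
  have h1 : HasFDerivAt (fun p : Euc n => ‖p‖ ^ 2) (2 • innerSL ℝ p) p :=
    (hasStrictFDerivAt_norm_sq p).hasFDerivAt
  have h2 : HasFDerivAt (fun p : Euc n => ⟪e, p⟫) (innerSL ℝ e) p := (innerSL ℝ e).hasFDerivAt
  have h3 := (h1.sub_const 1).sub (h2.const_mul 4)
  have h4 : fderiv ℝ (uu e) p = _ := HasFDerivAt.fderiv h3
  rw [h4]
  simp [inner_sub_left, inner_smul_left]

theorem fderiv_HH (e p v : Euc n) :
    fderiv ℝ (HH e) p v = ⟪(2 * uu e p) • ((2 : ℝ) • p - (4 : ℝ) • e) + e, v⟫ := by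
  have h1 : HasFDerivAt (uu e) (fderiv ℝ (uu e) p) p :=
    ((contDiff_uu e).differentiable (by simp)).differentiableAt.hasFDerivAt
  have h2 : HasFDerivAt (fun p : Euc n => ⟪e, p⟫) (innerSL ℝ e) p := (innerSL ℝ e).hasFDerivAt
  have h3 := (h1.pow 2).add h2
  have h4 : fderiv ℝ (HH e) p = _ := HasFDerivAt.fderiv h3
  rw [h4]
  simp only [_root_.add_apply, _root_.smul_apply, fderiv_uu,
    innerSL_apply_apply, inner_add_left, inner_smul_left]
  simp

theorem gradient_FE (e p : Euc n) :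
    gradient (FE e) p = (2 : ℝ) • p + (2 * ⟪e, p⟫) • e := by
  refine ext_inner_right ℝ fun v => ?_
  unfold gradient
  rw [InnerProductSpace.toDual_symm_apply, fderiv_FE]

theorem gradient_neg_HH (e p : Euc n) :
    gradient (fun q => - HH e q) p = - ((2 * uu e p) • ((2 : ℝ) • p - (4 : ℝ) • e) + e) := by
  refine ext_inner_right ℝ fun v => ?_
  unfold gradient
  rw [InnerProductSpace.toDual_symm_apply, fderiv_fun_neg, _root_.neg_apply,
    fderiv_HH, inner_neg_left]


theorem FE_grad_ne (e p : Euc n) (h : FE e p = 0) : gradient (FE e) p ≠ 0 := by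
  rw [gradient_FE]
  intro h0
  have h1 : ⟪(2 : ℝ) • p + (2 * ⟪e, p⟫) • e, p⟫ = 0 := by rw [h0, inner_zero_left]
  rw [inner_add_left, real_inner_smul_left, real_inner_smul_left, real_inner_self_eq_norm_sq] at h1
  unfold FE at h
  nlinarith

theorem HH_grad_ne {e p : Euc n} (he : ‖e‖ = 1) (h : HH e p = 0) :
    gradient (fun q => - HH e q) p ≠ 0 := by
  rw [gradient_neg_HH]
  intro h0
  have h0' : (2 * uu e p) • ((2 : ℝ) • p - (4 : ℝ) • e) + e = 0 := neg_eq_zero.1 h0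
  have he1 : ⟪e, e⟫ = (1 : ℝ) := by rw [real_inner_self_eq_norm_sq, he]; norm_num
  have h1 : ⟪(2 * uu e p) • ((2 : ℝ) • p - (4 : ℝ) • e) + e, e⟫ = 0 := by
    rw [h0', inner_zero_left]
  have h2 : ⟪(2 * uu e p) • ((2 : ℝ) • p - (4 : ℝ) • e) + e, p⟫ = 0 := by
    rw [h0', inner_zero_left]
  rw [inner_add_left, real_inner_smul_left, inner_sub_left, real_inner_smul_left,
    real_inner_smul_left, he1, real_inner_comm e p] at h1
  rw [inner_add_left, real_inner_smul_left, inner_sub_left, real_inner_smul_left,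
    real_inner_smul_left, real_inner_self_eq_norm_sq] at h2
  have hcs := cs e p he
  unfold HH at h
  have hu : uu e p = ‖p‖ ^ 2 - 1 - 4 * ⟪e, p⟫ := rfl
  set z := ⟪e, p⟫ with hz
  set N := ‖p‖ ^ 2 with hN
  set u := uu e p with hu'
  -- u ^ 2 + z = 0, 2u(2z-4)+1 = 0, 2u(2N-4z)+z=0
  have hz0 : z ≤ 0 := by nlinarith [sq_nonneg u]
  have hu0 : u ≠ 0 := by rintro h3; rw [h3] at h1; norm_num at h1
  have hupos : 0 < u := by
    rcases lt_or_gt_of_ne hu0 with h3 | h3
    · nlinarith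
    · exact h3
  have h3 : N = z ^ 2 := by
    have : 4 * u * (N - z ^ 2) = 0 := by nlinarith
    rcases mul_eq_zero.1 this with h4 | h4
    · exact absurd (by linarith : u = 0) hu0
    · linarith
  -- u = z^2 - 1 - 4 z, u = 1/(4(2 - z)) ≤ 1/8, -z = u^2 ≤ 1/64
  have h4 : u * (2 - z) = 1 / 4 := by nlinarith
  have h5 : u ≤ 1 / 8 := by nlinarith
  have h6 : -z ≤ 1 / 64 := by nlinarith
  nlinarith

theorem frontier_cases {e x : Euc n} (he : ‖e‖ = 1) (hx : x ∈ frontier (room e)) :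
    (FE e x = 0 ∧ 0 < HH e x) ∨ (FE e x < 0 ∧ HH e x = 0) := by
  have h1 : x ∈ closure (room e) := hx.1
  have h2 : x ∉ room e := by
    rw [(isOpen_room e).frontier_eq] at hx
    exact hx.2
  have h3 : FE e x ≤ 0 := by
    have : closure (room e) ⊆ {p | FE e p ≤ 0} :=
      closure_minimal (fun p hp => hp.1.le) (isClosed_le (continuous_FE e) continuous_const)
    exact this h1
  have h4 : 0 ≤ HH e x := by
    have : closure (room e) ⊆ {p | 0 ≤ HH e p} :=
      closure_minimal (fun p hp => hp.2.le) (isClosed_le continuous_const (continuous_HH e))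
    exact this h1
  rcases h4.lt_or_eq with h5 | h5
  · left
    refine ⟨?_, h5⟩
    by_contra h6
    exact h2 ⟨lt_of_le_of_ne h3 h6, h5⟩
  · right
    refine ⟨?_, h5.symm⟩
    have := wall_inside he h5.symm.le
    unfold FE
    linarith

theorem defFun_FE {e x : Euc n} (h : FE e x = 0) (h2 : 0 < HH e x) :
    IsDefFun (room e) x (FE e) := by
  refine ⟨contDiff_FE e, FE_grad_ne e x h, ?_⟩
  filter_upwards [(continuous_HH e).continuousAt.eventually (lt_mem_nhds h2)] with y hy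
  exact ⟨fun h => h.1, fun h => ⟨h, hy⟩⟩

theorem defFun_HH {e x : Euc n} (he : ‖e‖ = 1) (h : FE e x < 0) (h2 : HH e x = 0) :
    IsDefFun (room e) x (fun q => - HH e q) := by
  refine ⟨(contDiff_HH e).neg, HH_grad_ne he h2, ?_⟩
  filter_upwards [(continuous_FE e).continuousAt.eventually (gt_mem_nhds h)] with y hy
  constructor
  · intro h
    have := h.2
    simpa using this
  · intro h
    exact ⟨hy, by simpa using h⟩

theorem room_bounded (e : Euc n) : Bornology.IsBounded (room e) := by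
  refine (Metric.isBounded_ball (x := (0 : Euc n)) (r := 2)).subset fun p hp => ?_
  rw [mem_ball_zero_iff]
  have h := hp.1
  unfold FE at h
  nlinarith [sq_nonneg ⟪e, p⟫, norm_nonneg p]

/-! ### connectedness -/

/-- the shell near the outer wall -/
def shell (e : Euc n) : Set (Euc n) := {p | 3 / 2 ≤ ‖p‖ ^ 2 + ⟪e, p⟫ ^ 2 ∧ FE e p < 0}

theorem shell_sub {e : Euc n} (he : ‖e‖ = 1) : shell e ⊆ room e := by
  intro p hp
  refine ⟨hp.2, ?_⟩
  by_contra h
  push Not at h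
  have := wall_inside he h
  linarith [hp.1]

theorem shell_conn {e : Euc n} (hn : 2 ≤ n) : IsPreconnected (shell e) := by
  have h1 : shell e = (fun x : Euc n × ℝ => (√(x.2 / (1 + ⟪e, x.1⟫ ^ 2))) • x.1) ''
      (Metric.sphere (0 : Euc n) 1 ×ˢ Ico (3 / 2 : ℝ) 2) := by
    ext p
    constructor
    · intro hp
      have hN : 0 < ‖p‖ := by
        by_contra h0
        have h00 : p = 0 := by
          rw [← norm_le_zero_iff]; exact not_lt.1 h0
        have := hp.1
        rw [h00] at this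
        norm_num at this
      refine ⟨(‖p‖⁻¹ • p, ‖p‖ ^ 2 + ⟪e, p⟫ ^ 2), ⟨?_, hp.1, ?_⟩, ?_⟩
      · rw [mem_sphere_zero_iff_norm, norm_smul, norm_inv, norm_norm, inv_mul_cancel₀ hN.ne']
      · have := hp.2
        unfold FE at this
        simp only
        linarith
      · simp only
        rw [inner_smul_right]
        have h2 : (‖p‖ ^ 2 + ⟪e, p⟫ ^ 2) / (1 + (‖p‖⁻¹ * ⟪e, p⟫) ^ 2) = ‖p‖ ^ 2 := by
          have : (1 + (‖p‖⁻¹ * ⟪e, p⟫) ^ 2) = (‖p‖ ^ 2 + ⟪e, p⟫ ^ 2) / ‖p‖ ^ 2 := by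
            field_simp
          rw [this]
          have h3 : ‖p‖ ^ 2 + ⟪e, p⟫ ^ 2 ≠ 0 := by positivity
          field_simp
        rw [h2, Real.sqrt_sq hN.le, smul_smul, mul_inv_cancel₀ hN.ne', one_smul]
    · rintro ⟨⟨q, c⟩, ⟨hq, hc⟩, rfl⟩
      rw [mem_sphere_zero_iff_norm] at hq
      simp only at hq hc ⊢
      have hpos : 0 < 1 + ⟪e, q⟫ ^ 2 := by positivity
      have hc0 : 0 ≤ c / (1 + ⟪e, q⟫ ^ 2) := div_nonneg (by linarith [hc.1]) hpos.le
      have h3 : ‖(√(c / (1 + ⟪e, q⟫ ^ 2))) • q‖ ^ 2 + ⟪e, (√(c / (1 + ⟪e, q⟫ ^ 2))) • q⟫ ^ 2 = c := by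
        rw [norm_smul, inner_smul_right, hq, mul_one, mul_pow, Real.norm_eq_abs, sq_abs,
          Real.sq_sqrt hc0]
        field_simp
      refine ⟨by rw [h3]; exact hc.1, ?_⟩
      unfold FE
      rw [h3]
      linarith [hc.2]
  rw [h1]
  refine IsPreconnected.image ?_ _ ?_
  · refine IsPreconnected.prod ?_ isPreconnected_Ico
    refine isPreconnected_sphere ?_ 0 1
    rw [← Module.finrank_eq_rank, finrank_euclideanSpace, Fintype.card_fin]
    exact_mod_cast hn
  · refine Continuous.continuousOn ?_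
    have h2 : Continuous fun x : Euc n × ℝ => √(x.2 / (1 + ⟪e, x.1⟫ ^ 2)) := by
      refine Continuous.sqrt ?_
      refine Continuous.div continuous_snd ?_ fun x => ?_
      · fun_prop
      · positivity
    exact h2.smul continuous_fst

/-- scaling outwards: points above the wall or outside of the wall -/
theorem HH_smul {e p : Euc n} (h : 0 < HH e p) (h2 : 0 < ⟪e, p⟫ ∨ 0 < uu e p) {t : ℝ}
    (ht : 1 ≤ t) : 0 < HH e (t • p) := by
  unfold HH at h ⊢
  have hu : uu e p = ‖p‖ ^ 2 - 1 - 4 * ⟪e, p⟫ := rfl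
  have hut : uu e (t • p) = t ^ 2 * ‖p‖ ^ 2 - 1 - 4 * (t * ⟪e, p⟫) := by
    unfold uu
    rw [norm_smul, inner_smul_right, mul_pow, Real.norm_eq_abs, sq_abs]
  rw [inner_smul_right]
  rcases le_or_gt ⟪e, p⟫ 0 with hz | hz
  · have hup : 0 < uu e p := by
      rcases h2 with h3 | h3
      · linarith
      · exact h3
    have hN : 0 ≤ ‖p‖ ^ 2 := by positivity
    have h4 : t * uu e p ≤ uu e (t • p) := by
      rw [hut, hu]
      nlinarith [mul_nonneg (sub_nonneg.2 ht) (by positivity : 0 ≤ t * ‖p‖ ^ 2 + 1)]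
    have h5 : (t * uu e p) ^ 2 ≤ uu e (t • p) ^ 2 :=
      pow_le_pow_left₀ (by positivity) h4 2
    have h6 : t * uu e p ^ 2 ≤ (t * uu e p) ^ 2 := by
      nlinarith [sq_nonneg (uu e p), mul_nonneg (mul_nonneg (by linarith : (0 : ℝ) ≤ t)
        (sub_nonneg.2 ht)) (sq_nonneg (uu e p))]
    have h7 : 0 < t * (uu e p ^ 2 + ⟪e, p⟫) := mul_pos (by linarith) h
    linarith
  · have : 0 < t * ⟪e, p⟫ := mul_pos (by linarith) hz
    have := sq_nonneg (uu e (t • p))
    linarith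

theorem joined_radial {e p : Euc n} (he : ‖e‖ = 1) (hn : 2 ≤ n) (hp : p ∈ room e)
    (h2 : 0 < ⟪e, p⟫ ∨ 0 < uu e p) :
    ∃ t, t ⊆ room e ∧ shell e ⊆ t ∧ p ∈ t ∧ IsPreconnected t ∧ (shell e ∩ t).Nonempty := by
  rcases le_or_gt (3 / 2) (‖p‖ ^ 2 + ⟪e, p⟫ ^ 2) with h3 | h3
  · have hps : p ∈ shell e := ⟨h3, hp.1⟩
    exact ⟨shell e, shell_sub he, subset_rfl, hps, shell_conn hn, p, hps, hps⟩
  · have hpos : 0 < ‖p‖ ^ 2 + ⟪e, p⟫ ^ 2 := by
      have hp0 : p ≠ 0 := by
        rintro rfl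
        unfold uu at h2
        norm_num at h2
      have := norm_pos_iff.2 hp0
      positivity
    set c := ‖p‖ ^ 2 + ⟪e, p⟫ ^ 2 with hc
    set T := √((3 / 2) / c) with hT
    have hT2 : T ^ 2 * c = 3 / 2 := by
      rw [hT, Real.sq_sqrt (by positivity)]
      field_simp
    have hT1 : 1 ≤ T := by
      rw [hT]
      apply Real.one_le_sqrt.2
      rw [le_div_iff₀ hpos]
      linarith
    have hval : ∀ t : ℝ, ‖t • p‖ ^ 2 + ⟪e, t • p⟫ ^ 2 = t ^ 2 * c := by
      intro t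
      rw [norm_smul, inner_smul_right, mul_pow, Real.norm_eq_abs, sq_abs, hc]
      ring
    set L : Set (Euc n) := (fun t : ℝ => t • p) '' Icc 1 T with hL
    have hLc : IsPreconnected L :=
      isPreconnected_Icc.image _ (by fun_prop)
    have hLs : L ⊆ room e := by
      rintro _ ⟨t, ht, rfl⟩
      refine ⟨?_, HH_smul hp.2 h2 ht.1⟩
      unfold FE
      simp only
      rw [hval]
      have : t ^ 2 ≤ T ^ 2 := pow_le_pow_left₀ (by linarith [ht.1]) ht.2 2
      nlinarith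
    have hTs : T • p ∈ shell e := by
      refine ⟨?_, ?_⟩
      · rw [hval, hT2]
      · unfold FE
        rw [hval, hT2]
        norm_num
    have hTL : T • p ∈ L := ⟨T, ⟨hT1, le_rfl⟩, rfl⟩
    have hpL : p ∈ L := ⟨1, ⟨le_rfl, hT1⟩, by simp⟩
    refine ⟨shell e ∪ L, union_subset (shell_sub he) hLs, subset_union_left, Or.inr hpL,
      IsPreconnected.union (T • p) hTs hTL (shell_conn hn) hLc, T • p, hTs, Or.inr hTL⟩

/-- moving up from the cup -/
theorem joined_vertical {e p : Euc n} (he : ‖e‖ = 1) (hn : 2 ≤ n) (hp : p ∈ room e)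
    (h2 : ⟪e, p⟫ ≤ 0) (h3 : uu e p < 0) :
    ∃ t, t ⊆ room e ∧ shell e ⊆ t ∧ p ∈ t ∧ IsPreconnected t ∧ (shell e ∩ t).Nonempty := by
  have he1 : ⟪e, e⟫ = (1 : ℝ) := by rw [real_inner_self_eq_norm_sq, he]; norm_num
  have hz : ∀ h : ℝ, ⟪e, p + h • e⟫ = ⟪e, p⟫ + h := by
    intro h
    rw [inner_line, he1, mul_one]
  have hN : ∀ h : ℝ, ‖p + h • e‖ ^ 2 = ‖p‖ ^ 2 + 2 * h * ⟪e, p⟫ + h ^ 2 := by
    intro h
    rw [normsq_line, he, real_inner_comm]
    ring
  have hcs := cs e p he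
  have hu : uu e p = ‖p‖ ^ 2 - 1 - 4 * ⟪e, p⟫ := rfl
  have hmem : ∀ h : ℝ, 0 ≤ h → ⟪e, p⟫ + h ≤ 1 / 2 → p + h • e ∈ room e := by
    intro h hh0 hh1
    have hFE := hp.1
    have hHH := hp.2
    unfold FE at hFE
    unfold HH at hHH
    constructor
    · unfold FE
      rw [hz, hN]
      have h5 : (⟪e, p⟫ + h) ^ 2 ≤ max (⟪e, p⟫ ^ 2) (1 / 4) := by
        rcases le_or_gt (⟪e, p⟫ + h) 0 with h6 | h6
        · exact le_max_of_le_left (by nlinarith)
        · exact le_max_of_le_right (by nlinarith)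
      rcases max_cases (⟪e, p⟫ ^ 2) (1 / 4 : ℝ) with h6 | h6
      · rw [h6.1] at h5
        nlinarith
      · rw [h6.1] at h5
        nlinarith
    · unfold HH
      rw [hz]
      rcases le_or_gt (⟪e, p⟫ + h) 0 with h6 | h6
      · have h7 : uu e (p + h • e) ≤ uu e p := by
          unfold uu
          rw [hz, hN]
          nlinarith
        nlinarith
      · have := sq_nonneg (uu e (p + h • e))
        linarith
  set T := 1 / 2 - ⟪e, p⟫ with hT
  have hT0 : 0 ≤ T := by rw [hT]; linarith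
  set L : Set (Euc n) := (fun t : ℝ => p + t • e) '' Icc 0 T with hL
  have hLc : IsPreconnected L := isPreconnected_Icc.image _ (by fun_prop)
  have hLs : L ⊆ room e := by
    rintro _ ⟨t, ht, rfl⟩
    exact hmem t ht.1 (by linarith [ht.2])
  have hTr : p + T • e ∈ room e := hmem T hT0 (by rw [hT]; linarith)
  have hTL : p + T • e ∈ L := ⟨T, ⟨hT0, le_rfl⟩, rfl⟩
  have hpL : p ∈ L := ⟨0, ⟨le_rfl, hT0⟩, by simp⟩
  obtain ⟨t, ht1, ht2, ht3, ht4, ht5⟩ := joined_radial he hn hTr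
    (Or.inl (by rw [hz, hT]; linarith))
  refine ⟨t ∪ L, union_subset ht1 hLs, ht2.trans subset_union_left, Or.inr hpL,
    IsPreconnected.union (p + T • e) ht3 hTL ht4 hLc, ?_⟩
  obtain ⟨x, hx1, hx2⟩ := ht5
  exact ⟨x, hx1, Or.inl hx2⟩

theorem uu_ne {e p : Euc n} (hp : p ∈ room e) (h2 : ⟪e, p⟫ ≤ 0) : uu e p ≠ 0 := by
  intro h
  have := hp.2
  unfold HH at this
  rw [h] at this
  norm_num at this
  linarith

theorem room_preconnected {e : Euc n} (he : ‖e‖ = 1) (hn : 2 ≤ n) :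
    IsPreconnected (room e) := by
  have key : ∀ p ∈ room e,
      ∃ t, t ⊆ room e ∧ shell e ⊆ t ∧ p ∈ t ∧ IsPreconnected t ∧ (shell e ∩ t).Nonempty := by
    intro p hp
    rcases lt_or_ge 0 ⟪e, p⟫ with h1 | h1
    · exact joined_radial he hn hp (Or.inl h1)
    · rcases lt_or_gt_of_ne (uu_ne hp h1) with h2 | h2
      · exact joined_vertical he hn hp h1 h2
      · exact joined_radial he hn hp (Or.inr h2)
  rcases (room e).eq_empty_or_nonempty with h0 | ⟨x0, hx0⟩
  · rw [h0]; exact isPreconnected_empty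
  obtain ⟨t0, -, -, -, -, ⟨x, hx, -⟩⟩ := key x0 hx0
  refine isPreconnected_of_forall x fun y hy => ?_
  obtain ⟨t, ht1, ht2, ht3, ht4, -⟩ := key y hy
  exact ⟨t, ht1, ht2 hx, ht3, ht4⟩

/-! ### the invariant -/

/-- The state `(p, v)` is of pocket type. -/
def Pocket (e p v : Euc n) : Prop :=
  (⟪e, p⟫ < 0 → 0 < uu e p) ∧ (0 ≤ ⟪e, p⟫ → 0 ≤ KK e p v)

theorem uu_pos_of_path {e p v : Euc n} {a b : ℝ} (hab : a ≤ b)
    (ha : 0 < uu e (p + a • v))
    (hz : ∀ s ∈ Ioc a b, ⟪e, p + s • v⟫ < 0)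
    (hH : ∀ s ∈ Ioc a b, 0 ≤ HH e (p + s • v)) : 0 < uu e (p + b • v) := by
  by_contra hcon
  push Not at hcon
  have hc : ContinuousOn (fun s : ℝ => uu e (p + s • v)) (Icc a b) :=
    ((continuous_uu e).comp (by fun_prop : Continuous fun s : ℝ => p + s • v)).continuousOn
  obtain ⟨s, hs, hs0⟩ := intermediate_value_Icc' hab hc ⟨hcon, ha.le⟩
  simp only at hs0
  have hsa : s ≠ a := by
    rintro rfl
    linarith
  have hs' : s ∈ Ioc a b := ⟨lt_of_le_of_ne hs.1 (Ne.symm hsa), hs.2⟩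
  have h1 := hH s hs'
  have h2 := hz s hs'
  unfold HH at h1
  rw [hs0] at h1
  norm_num at h1
  linarith

theorem fly_step {e p v : Euc n} {τ : ℝ} (hτ : 0 < τ)
    (hin : ∀ s ∈ Ioo 0 τ, p + s • v ∈ room e) (h : Pocket e p v) :
    Pocket e (p + τ • v) v := by
  have hHτ : ∀ s ∈ Ioc 0 τ, 0 ≤ HH e (p + s • v) := by
    intro s hs
    rcases hs.2.lt_or_eq with h1 | h1
    · exact (hin s ⟨hs.1, h1⟩).2.le
    · subst h1
      have hc : Tendsto (fun r : ℝ => HH e (p + r • v)) (𝓝[<] s) (𝓝 (HH e (p + s • v))) :=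
        (((continuous_HH e).comp
          (by fun_prop : Continuous fun s : ℝ => p + s • v)).tendsto s).mono_left
          nhdsWithin_le_nhds
      refine ge_of_tendsto hc ?_
      filter_upwards [Ioo_mem_nhdsLT hs.1] with r hr
      exact (hin r hr).2.le
  refine ⟨fun hz => ?_, fun hz => ?_⟩
  · rw [inner_line] at hz
    rcases lt_or_ge ⟪e, p⟫ 0 with h0 | h0
    · -- start below
      have h1 := h.1 h0
      have h1' : 0 < uu e (p + (0 : ℝ) • v) := by simpa using h1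
      refine uu_pos_of_path hτ.le h1' (fun s hs => ?_) (fun s hs => hHτ s hs)
      rw [inner_line]
      -- linear function negative at 0 and τ
      have : τ * (⟪e, p⟫ + s * ⟪e, v⟫) = (τ - s) * ⟪e, p⟫ + s * (⟪e, p⟫ + τ * ⟪e, v⟫) := by ring
      have h5 : τ * (⟪e, p⟫ + s * ⟪e, v⟫) < 0 := by
        rw [this]
        have h6 : (τ - s) * ⟪e, p⟫ ≤ 0 :=
          mul_nonpos_of_nonneg_of_nonpos (by linarith [hs.2]) h0.le
        have h7 : s * (⟪e, p⟫ + τ * ⟪e, v⟫) < 0 := mul_neg_of_pos_of_neg hs.1 hz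
        linarith
      by_contra hcon
      push Not at hcon
      have := mul_nonneg hτ.le hcon
      linarith
    · -- start above, crossing at time `a`
      have hK := h.2 h0
      have hv : ⟪e, v⟫ < 0 := by
        by_contra hcon
        push Not at hcon
        have := mul_nonneg hτ.le hcon
        linarith
      set a := ⟪e, p⟫ / (-⟪e, v⟫) with ha
      have ha0 : 0 ≤ a := div_nonneg h0 (by linarith)
      have haz : ⟪e, p⟫ + a * ⟪e, v⟫ = 0 := by
        have hvne : ⟪e, v⟫ ≠ 0 := hv.ne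
        rw [ha]; field_simp; ring
      have haτ : a < τ := by
        rw [ha, div_lt_iff₀ (by linarith)]
        linarith
      -- value of K at the crossing point
      have hKa : 0 ≤ ⟪e, v⟫ ^ 2 * (‖p + a • v‖ ^ 2 - 1) := by
        have h1 := KK_line e p v a
        unfold KK at h1
        rw [inner_line, haz] at h1
        unfold KK at hK
        nlinarith
      have hNa : 0 ≤ ‖p + a • v‖ ^ 2 - 1 := by
        by_contra hcon
        push Not at hcon
        have : ⟪e, v⟫ ^ 2 * (‖p + a • v‖ ^ 2 - 1) < 0 :=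
          mul_neg_of_pos_of_neg (by nlinarith) hcon
        linarith
      have hua : uu e (p + a • v) = ‖p + a • v‖ ^ 2 - 1 := by
        unfold uu
        rw [inner_line, haz]
        ring
      -- the crossing point is not on the rim
      have hrim : 0 < ‖p + a • v‖ ^ 2 - 1 := by
        rcases hNa.lt_or_eq with h1 | h1
        · exact h1
        · exfalso
          -- just after the crossing the point is in the wall
          have hb : ∀ s ∈ Ioo 0 (τ - a), 0 < (2 * s * ⟪p + a • v, v⟫ + s ^ 2 * ‖v‖ ^ 2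
              - 4 * (s * ⟪e, v⟫)) ^ 2 + s * ⟪e, v⟫ := by
            intro s hs
            have h2 := (hin (a + s) ⟨by linarith [hs.1], by linarith [hs.2]⟩).2
            unfold HH at h2
            have h3 : p + (a + s) • v = (p + a • v) + s • v := by
              rw [add_smul, add_assoc]
            rw [h3] at h2
            unfold uu at h2
            rw [inner_line, normsq_line, inner_line, haz] at h2
            have h4 : ‖p + a • v‖ ^ 2 = 1 := by linarith
            rw [h4] at h2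
            convert h2 using 1
            ring
          have hb' : ∀ s ∈ Ioo 0 (τ - a), 0 < s * (2 * ⟪p + a • v, v⟫ + s * ‖v‖ ^ 2
              - 4 * ⟪e, v⟫) ^ 2 + ⟪e, v⟫ := by
            intro s hs
            have h2 := hb s hs
            have h3 : (2 * s * ⟪p + a • v, v⟫ + s ^ 2 * ‖v‖ ^ 2 - 4 * (s * ⟪e, v⟫)) ^ 2
                + s * ⟪e, v⟫ = s * (s * (2 * ⟪p + a • v, v⟫ + s * ‖v‖ ^ 2
              - 4 * ⟪e, v⟫) ^ 2 + ⟪e, v⟫) := by ring
            rw [h3] at h2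
            exact (pos_iff_pos_of_mul_pos h2).1 hs.1
          have hc : Tendsto (fun s : ℝ => s * (2 * ⟪p + a • v, v⟫ + s * ‖v‖ ^ 2
              - 4 * ⟪e, v⟫) ^ 2 + ⟪e, v⟫) (𝓝[>] 0) (𝓝 ⟪e, v⟫) := by
            have : Continuous (fun s : ℝ => s * (2 * ⟪p + a • v, v⟫ + s * ‖v‖ ^ 2
              - 4 * ⟪e, v⟫) ^ 2 + ⟪e, v⟫) := by fun_prop
            have h5 := this.tendsto 0
            simp only [zero_mul, zero_add] at h5
            exact h5.mono_left nhdsWithin_le_nhds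
          have : 0 ≤ ⟪e, v⟫ := by
            refine ge_of_tendsto hc ?_
            filter_upwards [Ioo_mem_nhdsGT (by linarith : (0 : ℝ) < τ - a)] with s hs
            exact (hb' s hs).le
          linarith
      refine uu_pos_of_path haτ.le (by rw [hua]; exact hrim) (fun s hs => ?_)
        (fun s hs => hHτ s ⟨by linarith [hs.1], hs.2⟩)
      rw [inner_line]
      nlinarith [hs.1]
  · rw [KK_line]
    rcases le_or_gt 0 ⟪e, p⟫ with h0 | h0
    · exact h.2 h0
    · -- start below, end above: crossing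
      rw [inner_line] at hz
      have h1 := h.1 h0
      have hv : 0 < ⟪e, v⟫ := by
        by_contra hcon
        push Not at hcon
        have := mul_nonpos_of_nonneg_of_nonpos hτ.le hcon
        linarith
      set a := (-⟪e, p⟫) / ⟪e, v⟫ with ha
      have ha0 : 0 < a := div_pos (by linarith) hv
      have haz : ⟪e, p⟫ + a * ⟪e, v⟫ = 0 := by
        rw [ha]; field_simp; ring
      have haτ : a ≤ τ := by
        rw [ha, div_le_iff₀ hv]
        linarith
      have h2 : ∀ s ∈ Ioo 0 a, 0 < uu e (p + s • v) := by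
        intro s hs
        have h1' : 0 < uu e (p + (0 : ℝ) • v) := by simpa using h1
        refine uu_pos_of_path hs.1.le h1' (fun r hr => ?_)
          (fun r hr => hHτ r ⟨hr.1, by linarith [hr.2, hs.2]⟩)
        rw [inner_line]
        have : r < a := lt_of_le_of_lt hr.2 hs.2
        nlinarith
      have h3 : 0 ≤ uu e (p + a • v) := by
        have hc : Tendsto (fun r : ℝ => uu e (p + r • v)) (𝓝[<] a) (𝓝 (uu e (p + a • v))) :=
          (((continuous_uu e).comp
            (by fun_prop : Continuous fun s : ℝ => p + s • v)).tendsto a).mono_left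
            nhdsWithin_le_nhds
        refine ge_of_tendsto hc ?_
        filter_upwards [Ioo_mem_nhdsLT ha0] with r hr
        exact (h2 r hr).le
      have hua : uu e (p + a • v) = ‖p + a • v‖ ^ 2 - 1 := by
        unfold uu
        rw [inner_line, haz]
        ring
      rw [hua] at h3
      have h4 := KK_line e p v a
      unfold KK at h4
      rw [inner_line, haz] at h4
      unfold KK
      have := mul_nonneg (sq_nonneg ⟪e, v⟫) h3
      linarith

/-- `KK` is conserved by a reflection of the ellipsoid. -/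
theorem KK_reflect {e p v ν : Euc n} (he : ‖e‖ = 1) (h : FE e p = 0)
    (hν : ν = ‖gradient (FE e) p‖⁻¹ • gradient (FE e) p) :
    KK e p (v - (2 * ⟪v, ν⟫) • ν) = KK e p v := by
  have he1 : ⟪e, e⟫ = (1 : ℝ) := by rw [real_inner_self_eq_norm_sq, he]; norm_num
  set g := p + ⟪e, p⟫ • e with hg
  have hgrad : gradient (FE e) p = (2 : ℝ) • g := by
    rw [gradient_FE, hg, smul_add, smul_smul]
  have hgne : g ≠ 0 := by
    intro h0
    have := FE_grad_ne e p h
    rw [hgrad, h0, smul_zero] at this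
    exact this rfl
  have hgn : 0 < ‖g‖ := norm_pos_iff.2 hgne
  have hν' : ν = ‖g‖⁻¹ • g := by
    rw [hν, hgrad, norm_smul, smul_smul]
    norm_num
    congr 1
    field_simp
  set z := ⟪e, p⟫ with hz
  have hep : ⟪p, e⟫ = z := by rw [real_inner_comm]
  have hpg : ⟪p, g⟫ = ‖p‖ ^ 2 + z ^ 2 := by
    rw [hg, inner_add_right, inner_smul_right, real_inner_self_eq_norm_sq, hep]
    ring
  have heg : ⟪e, g⟫ = 2 * z := by
    rw [hg, inner_add_right, inner_smul_right, he1]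
    ring
  have hgg : ‖g‖ ^ 2 = ‖p‖ ^ 2 + 3 * z ^ 2 := by
    rw [← real_inner_self_eq_norm_sq]
    nth_rewrite 1 [hg]
    rw [inner_add_left, real_inner_smul_left, hpg, heg]
    ring
  have hvg : ⟪v, g⟫ = ⟪p, v⟫ + z * ⟪e, v⟫ := by
    rw [hg, inner_add_right, inner_smul_right, real_inner_comm, real_inner_comm e v]
  unfold FE at h
  have hN : ‖p‖ ^ 2 = 2 - z ^ 2 := by linarith
  have hgg' : ‖g‖ ^ 2 = 2 * (1 + z ^ 2) := by rw [hgg, hN]; ring
  -- `(2 ⟪v, ν⟫) • ν = lam • g`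
  set lam := ⟪v, g⟫ / (1 + z ^ 2) with hlam
  have hz1 : (0 : ℝ) < 1 + z ^ 2 := by positivity
  have hw : (2 * ⟪v, ν⟫) • ν = lam • g := by
    rw [hν', inner_smul_right, smul_smul]
    congr 1
    rw [hlam]
    have : ‖g‖⁻¹ * ‖g‖⁻¹ = 1 / (2 * (1 + z ^ 2)) := by
      rw [← hgg']
      field_simp
    calc 2 * (‖g‖⁻¹ * ⟪v, g⟫) * ‖g‖⁻¹ = 2 * ⟪v, g⟫ * (‖g‖⁻¹ * ‖g‖⁻¹) := by ring
      _ = ⟪v, g⟫ / (1 + z ^ 2) := by rw [this]; field_simp
  have hlam' : lam * (1 + z ^ 2) = ⟪p, v⟫ + z * ⟪e, v⟫ := by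
    rw [hlam, div_mul_cancel₀ _ hz1.ne', hvg]
  rw [hw]
  have h1 : ⟪e, v - lam • g⟫ = ⟪e, v⟫ - lam * (2 * z) := by
    rw [inner_sub_right, inner_smul_right, heg]
  have h2 : ⟪p, v - lam • g⟫ = ⟪p, v⟫ - lam * 2 := by
    rw [inner_sub_right, inner_smul_right, hpg, hN]
    ring
  have h3 : ‖v - lam • g‖ ^ 2 = ‖v‖ ^ 2 := by
    rw [norm_sub_sq_real, inner_smul_right, norm_smul, mul_pow, Real.norm_eq_abs, sq_abs, hgg',
      hvg, ← hlam']
    ring
  unfold KK
  rw [h1, h2, h3, hN]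
  have : ⟪p, v⟫ = lam * (1 + z ^ 2) - z * ⟪e, v⟫ := by linarith
  rw [this]
  ring

theorem bounce_step {e p v ν : Euc n} (he : ‖e‖ = 1) (hb : p ∈ frontier (room e))
    (hν : IsOuterNormal (room e) p ν) (h : Pocket e p v) :
    Pocket e p (v - (2 * ⟪v, ν⟫) • ν) := by
  refine ⟨h.1, fun hz => ?_⟩
  rcases frontier_cases he hb with ⟨h1, h2⟩ | ⟨h1, h2⟩
  · obtain ⟨F, hF, hFν⟩ := hν
    have h3 := hF.normal_unique (defFun_FE h1 h2) (isOpen_room e) hb
    rw [KK_reflect he h1 (by rw [hFν, h3])]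
    exact h.2 hz
  · -- the rim of the wall
    unfold HH at h2
    have hz0 : ⟪e, p⟫ = 0 := by nlinarith [sq_nonneg (uu e p)]
    have hu0 : uu e p = 0 := by
      rw [hz0, add_zero] at h2
      exact pow_eq_zero_iff (two_ne_zero) |>.1 h2
    have hN : ‖p‖ ^ 2 = 1 := by
      unfold uu at hu0
      rw [hz0] at hu0
      linarith
    unfold KK
    rw [hz0, hN]
    norm_num

theorem photon_pocket {e p v q : Euc n} {t : ℝ} (he : ‖e‖ = 1)
    (h : Photon (room e) p v t q) : Pocket e p v → (⟪e, q⟫ < 0 → 0 < uu e q) := by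
  induction h with
  | fly p v t ht hin =>
      intro hP
      rcases ht.lt_or_eq with h1 | h1
      · exact (fly_step h1 (fun s hs => hin s ⟨hs.1, hs.2.le⟩) hP).1
      · subst h1
        simpa using hP.1
  | bounce p v ν q τ t hτ hin hb hν hv h ih =>
      intro hP
      exact ih (bounce_step he hb hν (fly_step hτ hin hP))

/-- The pockets. -/
def pockets (e : Euc n) : Set (Euc n) := room e ∩ {p | ⟪e, p⟫ < 0 ∧ 0 < uu e p}

/-- The cup. -/
def cup (e : Euc n) : Set (Euc n) := room e ∩ {p | ⟪e, p⟫ < 0 ∧ uu e p < 0}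

theorem isOpen_pockets (e : Euc n) : IsOpen (pockets e) := by
  unfold pockets
  refine (isOpen_room e).inter ?_
  exact (isOpen_lt (by fun_prop : Continuous fun p : Euc n => ⟪e, p⟫) continuous_const).inter
    (isOpen_lt continuous_const (continuous_uu e))

theorem isOpen_cup (e : Euc n) : IsOpen (cup e) := by
  unfold cup
  refine (isOpen_room e).inter ?_
  exact (isOpen_lt (by fun_prop : Continuous fun p : Euc n => ⟪e, p⟫) continuous_const).inter
    (isOpen_lt (continuous_uu e) continuous_const)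

theorem front_disjoint {e P : Euc n} (he : ‖e‖ = 1) (hP : P ∈ pockets e) (t : ℝ) :
    Disjoint (front (room e) P t) (cup e) := by
  rw [Set.disjoint_left]
  rintro q ⟨v, -, hq⟩ hc
  have h1 := photon_pocket he hq ⟨fun _ => hP.2.2, fun h => absurd hP.2.1 (not_lt.2 h)⟩ hc.2.1
  have h2 := hc.2.2
  linarith

theorem cup_nonempty {e : Euc n} (he : ‖e‖ = 1) : (cup e).Nonempty := by
  have he1 : ⟪e, e⟫ = (1 : ℝ) := by rw [real_inner_self_eq_norm_sq, he]; norm_num
  have h1 : ⟪e, (-(1 / 10 : ℝ)) • e⟫ = -(1 / 10 : ℝ) := by rw [inner_smul_right, he1, mul_one]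
  have h2 : ‖(-(1 / 10 : ℝ)) • e‖ ^ 2 = 1 / 100 := by
    rw [norm_smul, he, mul_one, Real.norm_eq_abs, sq_abs]; norm_num
  refine ⟨(-(1 / 10 : ℝ)) • e, ⟨?_, ?_⟩, ?_, ?_⟩
  · unfold FE; rw [h1, h2]; norm_num
  · unfold HH uu; rw [h1, h2]; norm_num
  · rw [h1]; norm_num
  · unfold uu; rw [h1, h2]; norm_num

theorem pockets_nonempty {e f : Euc n} (he : ‖e‖ = 1) (hf : ‖f‖ = 1) (hef : ⟪e, f⟫ = (0 : ℝ)) :
    (pockets e).Nonempty := by
  have he1 : ⟪e, e⟫ = (1 : ℝ) := by rw [real_inner_self_eq_norm_sq, he]; norm_num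
  have h1 : ⟪e, (6 / 5 : ℝ) • f + (-(1 / 4 : ℝ)) • e⟫ = -(1 / 4 : ℝ) := by
    rw [inner_add_right, inner_smul_right, inner_smul_right, he1, hef]; norm_num
  have h2 : ‖(6 / 5 : ℝ) • f + (-(1 / 4 : ℝ)) • e‖ ^ 2 = 36 / 25 + 1 / 16 := by
    rw [norm_add_sq_real, norm_smul, norm_smul, inner_smul_right, real_inner_smul_left, he, hf,
      real_inner_comm, hef, Real.norm_eq_abs, Real.norm_eq_abs, mul_one, mul_one, sq_abs, sq_abs]
    norm_num
  refine ⟨(6 / 5 : ℝ) • f + (-(1 / 4 : ℝ)) • e, ⟨?_, ?_⟩, ?_, ?_⟩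
  · unfold FE; rw [h1, h2]; norm_num
  · unfold HH uu; rw [h1, h2]; norm_num
  · rw [h1]; norm_num
  · unfold uu; rw [h1, h2]; norm_num

theorem room_smooth {e : Euc n} (he : ‖e‖ = 1) (hn : 2 ≤ n) : IsSmoothDomain (room e) where
  isOpen := isOpen_room e
  isConnected := by
    refine ⟨?_, room_preconnected he hn⟩
    obtain ⟨x, hx⟩ := cup_nonempty he
    exact ⟨x, hx.1⟩
  isBounded := room_bounded e
  smooth := by
    intro x hx
    rcases frontier_cases he hx with ⟨h1, h2⟩ | ⟨h1, h2⟩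
    · exact ⟨_, defFun_FE h1 h2⟩
    · exact ⟨_, defFun_HH he h1 h2⟩

theorem not_dense_of_disjoint {Ω : Set (Euc n)} {P : Euc n} {B : Set (Euc n)} (hB : IsOpen B)
    (hB0 : B.Nonempty) (hBΩ : B ⊆ Ω) (h : ∀ t, Disjoint (front Ω P t) B) :
    ¬ FrontsBecomeDense Ω P := by
  intro hd
  obtain ⟨x, hx⟩ := hB0
  obtain ⟨ε, hε, hball⟩ := Metric.isOpen_iff.1 hB x hx
  obtain ⟨T, hT⟩ := hd ε hε
  obtain ⟨q, hq1, hq2⟩ := hT T le_rfl x (hBΩ hx)
  exact Set.disjoint_left.1 (h T) hq1 (hball (by rwa [Metric.mem_ball, dist_comm]))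

end

end Pool.Agent.W105.PR
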